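import Pool.Agent.H21.Metal

namespace Pool.Agent.Results.MP_e848aa_gt.FiniteFibres

open Set Pool.Agent.H21.Metal

theorem result (X Y : Type) [TopologicalSpace X] [TopologicalSpace Y] (f : X → Y)
    (hc : Continuous f) (hf : IsClosedMap f) (hs : Function.Surjective f) (hX : Metalindelof X)
    (hfin : ∀ y, (f ⁻¹' {y}).Finite) : Metalindelof Y :=
  finite_to_one hc hf hs hfin hX

end Pool.Agent.Results.MP_e848aa_gt.FiniteFibres
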