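import Pool.Agent.H21.Metal

namespace Pool.Agent.Results.MP_e848aa_gt.SmallCovers

open Set Pool.Agent.H21.Metal

theorem result (X Y : Type) [TopologicalSpace X] [TopologicalSpace Y] (f : X → Y)
    (hc : Continuous f) (hf : IsClosedMap f) (hs : Function.Surjective f) (hX : Metalindelof X) :
    ∀ 𝒰 : Set (Set Y), (∀ u ∈ 𝒰, IsOpen u) → ⋃₀ 𝒰 = univ →
      Cardinal.mk 𝒰 ≤ Cardinal.aleph 1 → Refn 𝒰 :=
  small_cover hc hf hs hX

end Pool.Agent.Results.MP_e848aa_gt.SmallCovers
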